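import Pool.Agent.Lib.MP_83608f_co.LIM.FIN6

/-!
# The Behzad-Chartrand-Wall conjecture holds asymptotically for large girth, uniformly in `k`

Every `k`-diregular digraph without directed cycles of length less than `g` has at least `(g - 1 - 14000000/g) k` vertices
(conjecture: `(g - 1) k + 1`).

Proof (`m = g - 1`, `n ≤ m k`).  Let `Q` be a fragment of maximal excess `e`: `Q` has `k - e` out-neighbours, and at most
`n/2` vertices, and let `δ` be the least out-degree inside `Q`, attained at `x`; then `e ≤ δ = O(k/m)`.

* Balls around `x`: `|B(i+1)| - |B(i)| ≥ k - δ + |Q ∩ (B(i+1) \ B(i))|` as long as `B(i) ∪ Q` has not dominated the other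
  side of `Q`.
* Call a vertex near if it has a common ancestor with `x` at bounded distance.  Gap lemma: a vertex of `Q` which is near in
  a weak sense is near in a strong sense or reaches `x` in boundedly many steps.  Hence the near vertices of `Q` in `B(i)`
  are closed under taking out-neighbours in `Q` (for `i ≤ m - O(1)`), so they contain the ball of radius `i` in the digraph
  inside `Q`; there are only `O(k)` near vertices in `Q`; and a far vertex in `B(i)` forces a boundary of at least
  `k - δ` new vertices besides the new near vertices.  The `O(1)` transitional steps cost at most a constant times the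
  least growth of the near set in a late step, and this growth is `O(δ)`.
* Caccetta-Häggkvist with an additive constant inside `Q`: the ball of radius `i` in `Q` has at least `(i - 45) δ` vertices.
  So the loss `i δ` of the first step is compensated up to `O(δ) = O(k/m)`.
-/

set_option autoImplicit false

namespace Pool.Agent.Results.MP_83608f_co.AsymptoticBound

/-- Let `G` be a digraph on a finite nonempty set `V` with all in-degrees and out-degrees equal to `k`.  If `G` has no
directed cycle of length less than `g` then it has at least `(g - 1 - 14000000/g) k` vertices. -/
theorem result (V : Type) [Finite V] [Nonempty V] (G : Digraph V) (k g : ℕ)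
    (hout : ∀ v, Nat.card {u // G.Adj v u} = k) (hin : ∀ v, Nat.card {u // G.Adj u v} = k)
    (hgirth : ∀ m : ℕ, 1 ≤ m → m < g → ¬ ∃ c : ℕ → V, (∀ i, c (i + m) = c i) ∧
      (∀ i, G.Adj (c i) (c (i + 1))) ∧ Set.InjOn c (Set.Iio m)) :
    ((g : ℝ) - 1 - 14000000 / g) * k ≤ Nat.card V :=
  Pool.Agent.Lib.MP_83608f_co.LIM.asy6 V G k g hout hin hgirth

end Pool.Agent.Results.MP_83608f_co.AsymptoticBound
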