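import Pool.Agent.Lib.MP_83608f_co.CN.TOPV
import Pool.Agent.Lib.MP_83608f_co.CN.NBL
import Pool.Agent.Lib.MP_83608f_co.CN.NBT

/-!
# The Behzad-Chartrand-Wall conjecture: `n ≥ (g-2) k + 1` for all `k`, `g`, and more for `5 ≤ g ≤ 14`

Every `k`-diregular digraph of girth at least `g` has at least `(g-2) k + 1` vertices, for all `k` and all `g`
(conjecture: `(g-1) k + 1`), and at least `c g * k` vertices for an explicit function `c`: `c 5 = 3.799`
(conjecture: `4k + 1`), `c 6 = 4.663`, `c 7 = 5.547`, `c 8 = 6.396`, `c 9 = 7.267`, `c 10 = 8.159`, `c 11 = 9.144`,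
`c 12 = 10.109`, `c 13 = 11.105`, `c 14 = 12.085` and `c g = g - 2` for the other `g`.

The proof has four parts (`m = g - 1`, `n` in units of `k`).

* Linear algebra: the rank of `Z ↦ (PZ, ZQ)` for generic matrices `P`, `Q` supported on the pairs at distance at most `a`
  and at most `1` bounds the number of pairs at distance at most `a + 1` from below; the losses are controlled by lower
  bounds `(a - E a) k` for all balls of radius `a` and by a Caccetta-Häggkvist constant for cycles of length at most `m`.
* A Caccetta-Häggkvist theorem with deficits: if every vertex `u` of `T` has `k - def u ≥ e` out-neighbours in `T` and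
  there are no closed walks of length at most `m`, then `|T| + λ ∑ def u ≥ C k` with `λ` about `1/e` and `C` about `0.72 m`.
* Both sides of a cut with `(1-φ) k` vertices are therefore large.
* Hence the balls of radius `a` have at least `(a - E a) k` vertices with `E a = φ 1 + ... + φ a`, where `φ N` is about
  `2 / (0.42 m + N)`.  The resulting conditions are certified by computation for `9 < m < 300` and by hand for `m ≥ 300`;
  `m ≤ 9` is done by a direct estimate; for `m ≤ 13` the constants are optimised.
-/

set_option autoImplicit false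

namespace Pool.Agent.Results.MP_83608f_co.GirthBound

/-- the constants: `c 5 = 3.799, ..., c 14 = 12.085` and `c g = g - 2` for all other `g` -/
noncomputable def c : ℕ → ℝ
  | 5 => 3.799
  | 6 => 4.663
  | 7 => 5.547
  | 8 => 6.396
  | 9 => 7.267
  | 10 => 8.159
  | 11 => 9.144
  | 12 => 10.109
  | 13 => 11.105
  | 14 => 12.085
  | g => g - 2

/-- Let `G` be a digraph on a finite nonempty set `V` with all in-degrees and out-degrees equal to `k`.  If `G` has no
directed cycle of length less than `g` then `|V| ≥ (g-2) k + 1` and `|V| ≥ c g * k`. -/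
theorem result (V : Type) [Finite V] [Nonempty V] (G : Digraph V) (k g : ℕ)
    (hout : ∀ v, Nat.card {u // G.Adj v u} = k) (hin : ∀ v, Nat.card {u // G.Adj u v} = k)
    (hgirth : ∀ m : ℕ, 1 ≤ m → m < g → ¬ ∃ c : ℕ → V, (∀ i, c (i + m) = c i) ∧
      (∀ i, G.Adj (c i) (c (i + 1))) ∧ Set.InjOn c (Set.Iio m)) :
    max (((g : ℝ) - 2) * k + 1) (c g * k) ≤ Nat.card V := by
  have h1 : (g - 2) * k + 1 ≤ Nat.card V :=
    open Pool.Agent.Lib.MP_83608f_co.CN in
    top8 (fun m hm => (Nat.lt_or_ge m 300).elim (fun h => cert m (by omega) h) (fun h => hasCert_tail h))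
      V G k g hout hin hgirth
  have h2 : ((g : ℝ) - 2) * k + 1 ≤ Nat.card V := by
    have h3 : (((g - 2) * k + 1 : ℕ) : ℝ) ≤ Nat.card V := by exact_mod_cast h1
    have h4 : (g : ℝ) - 2 ≤ ((g - 2 : ℕ) : ℝ) := by
      rw [sub_le_iff_le_add]
      exact_mod_cast (by omega : g ≤ g - 2 + 2)
    have h5 := mul_le_mul_of_nonneg_right h4 (Nat.cast_nonneg k)
    push_cast at h3
    linarith
  refine max_le h2 ?_
  obtain ⟨t5, t6, t7, t8, t9, t10, t11, t12, t13, t14⟩ :=
    Pool.Agent.Lib.MP_83608f_co.CN.topV V G k g hout hin hgirth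
  unfold c
  split
  · exact t5 (by norm_num)
  · exact t6 (by norm_num)
  · exact t7 (by norm_num)
  · exact t8 (by norm_num)
  · exact t9 (by norm_num)
  · exact t10 (by norm_num)
  · exact t11 (by norm_num)
  · exact t12 (by norm_num)
  · exact t13 (by norm_num)
  · exact t14 (by norm_num)
  · linarith

end Pool.Agent.Results.MP_83608f_co.GirthBound
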