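import Pool.Agent.Lib.MP_83608f_co.AV.EXP.Top

/-!
# The Behzad-Chartrand-Wall conjecture holds for all degrees if the girth is large

For all `g ≥ 10 ^ 43` and all `r`, `s` every digraph with all out-degrees `≥ r`, all in-degrees `≥ s` and without directed
cycles of length less than `g` has `n` vertices with `2 n ≥ (g - 1) (r + s) + 1`.  For `k`-diregular digraphs (`r = s = k`)
this is the conjectured bound `n ≥ k (g - 1) + 1`, for all `k` and all `g ≥ 10 ^ 43`.

The proof.  Let `m = g - 1`, `r ≥ s`, and consider a counterexample `2 n ≤ m (r + s)` with the smallest number of vertices.

* The Caccetta-Häggkvist bound with an additive constant and `2 n ≤ m (r + s)` give two-sided bounds for all balls: a ball of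
  radius `i ≤ m` has `(i + O(1)) (r + s) / 2` vertices.  Double counting of the intersections of out-balls and in-balls gives
  every vertex a position on a circle of length `m`, up to a small multiple of `m`, such that a walk of length `t ≤ m / 4` moves
  the position by about an amount in `[0, t]` (modules `QM`, `Macro`, `EXP/Mac`).  So closed walks have winding numbers, and
  there is a `ℤ`-cover with a shift `T`.
* Let `p / q` be the largest ratio of winding number and length of closed walks.  There are labels of the vertices of the cover
  such that every arc raises the label by at most `p`, every vertex has an in-neighbour with a label smaller by exactly `p`,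
  `T` raises the labels by `q`, and walks of length `≤ m / 8` never lower the label by much (`Pot`, `Loc`).  Let `G l` be the set
  of the vertices with labels `≤ l` (a front).
* If an arc goes backwards over the front `G l` then the two windows of `p` labels before and after the front have together
  at least `r + s` vertices.  Proof: an out-ball inside `G l` and an in-ball outside of `G l`, with no arc from the first to
  the second (`SH/LML`).
* The minimality of the counterexample, for the sets between two consecutive fronts without backward arcs, bounds the sum of
  the surpluses of these fronts.  This gives `q ≤ p m` (`Sum`, `SH/FIN`).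
* Let `q = p m - Δ`.  If `2 Δ ≥ p`, one good front gives a contradiction: the ball of radius two of a vertex with few
  out-neighbours in the front is disjoint from the in-neighbourhood of an ancestor of its next copy (`SH/SEC4`).
* If `2 Δ < p`, let `v l` be the vertex of `G l` with the fewest out-neighbours in `G l`, and let `z l` be an ancestor of
  `T (v l)`, `m - 2` tight steps before it.  Then `N⁺(v l)` and `N⁻(z l)` are disjoint, and the sum of the resulting
  inequalities over all `l` is contradictory (`SH/LOC5`, `SH/SUM5`).
-/

set_option autoImplicit false

namespace Pool.Agent.Results.MP_83608f_co.LargeGirth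

/-- Let `G` be a digraph on a finite nonempty set `V` with all out-degrees at least `r` and all in-degrees at least `s`, without
directed cycles of length less than `g` (a loop is a cycle of length one).  If `g ≥ 10 ^ 43` then
`2 |V| ≥ (g - 1) (r + s) + 1`. -/
theorem result (V : Type) [Finite V] [Nonempty V] (G : Digraph V) (r s g : ℕ) (hg : 10 ^ 43 ≤ g)
    (hout : ∀ v, r ≤ Nat.card {u // G.Adj v u}) (hin : ∀ v, s ≤ Nat.card {u // G.Adj u v})
    (hgirth : ∀ m : ℕ, 1 ≤ m → m < g → ¬ ∃ c : ℕ → V, (∀ i, c (i + m) = c i) ∧
      (∀ i, G.Adj (c i) (c (i + 1))) ∧ Set.InjOn c (Set.Iio m)) :
    (g - 1) * (r + s) + 1 ≤ 2 * Nat.card V :=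
  Pool.Agent.Lib.MP_83608f_co.AV.SH.bcw_explicit V G r s g hg hout hin hgirth

end Pool.Agent.Results.MP_83608f_co.LargeGirth
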