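import Pool.Agent.Lib.MP_83608f_co.CN.K9I

/-!
# The Behzad-Chartrand-Wall conjecture for the degrees six, seven, eight and nine

Every digraph with all in-degrees and out-degrees equal to `k`, `6 ≤ k ≤ 9`, and without directed cycles of length
less than `g` has at least `k (g - 1) + 1` vertices, for every `g`.

If the connectivity is at least `k - 1` this is the bound `n ≥ 2k + 1 + (g-3) min(k, c+1)`.  If it is `k - 2`, the cuts
with few vertices are uncrossed: some vertex has no cut of at most `k - 1` vertices between its closed out-neighbourhood
and its in-neighbourhood, so that its layers are large.  If it is smaller, both sides `O`, `U` of a minimum cut are sets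
whose outgoing (incoming) arcs end (begin) in at most `k - e` vertices, `e ≥ 3`.
The balls in such a set grow by at least `i` as long as they are smaller than the smallest such set for the excess
`e - i + 1`; a ball with at most `g - 1` (at most `2g - 2`) vertices contains a vertex with no (at most one) out-neighbour in
the ball, so that slow growth needs vertices with few out-neighbours in the set; these are rare; and the average over all
vertices of the sizes of an out-ball and an in-ball whose radii add up to `g - 1` is at most the size of the set plus one.
For `k = 8` and `k = 9` the resulting inequalities are checked by the kernel, from tables of weights; for `k = 9` and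
`g ≥ 42` the inequality is proved by hand.
-/

set_option autoImplicit false

namespace Pool.Agent.Results.MP_83608f_co.SmallDegrees

/-- Let `G` be a digraph on a finite nonempty set `V` with all in-degrees and out-degrees equal to `k`, where
`6 ≤ k ≤ 9`, without directed cycles of length less than `g` (a loop is a cycle of length one).  Then
`n ≥ k (g - 1) + 1`. -/
theorem result (V : Type) [Finite V] [Nonempty V] (G : Digraph V) (k : ℕ) (hk : 6 ≤ k) (hk' : k ≤ 9)
    (hout : ∀ v, Nat.card {u // G.Adj v u} = k) (hin : ∀ v, Nat.card {u // G.Adj u v} = k) (g : ℕ)
    (hgirth : ∀ m : ℕ, 1 ≤ m → m < g → ¬ ∃ c : ℕ → V, (∀ i, c (i + m) = c i) ∧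
      (∀ i, G.Adj (c i) (c (i + 1))) ∧ Set.InjOn c (Set.Iio m)) :
    k * (g - 1) + 1 ≤ Nat.card V :=
  Pool.Agent.Lib.MP_83608f_co.CN.top_69 V G k hk hk' hout hin g hgirth

end Pool.Agent.Results.MP_83608f_co.SmallDegrees
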